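import Mathlib
import Pool.Agent.Helper126.Fact
import Pool.Agent.W876.Two.Gen

/-!
# Finite conditions: Cohen reals, open sets, promises
-/

namespace Pool.Agent.W876.Dlt

open Cardinal Pool.Agent.Helper126.Sus.Forc

open scoped Classical

set_option linter.unusedSectionVars false

/-! ### Names of spaces -/

section

variable {P : Type} [Preorder P]

/-- The point named by `x a` of the Cantor space (`n` belongs to it iff the generic filter meets
`x a n`) extends the finite sequence `s`. -/
def Ext {I : Type} (x : I → ℕ → Set P) (a : I) (s : List Bool) : Set P :=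
  fall fun i : Fin s.length => if s.get i = true then meets (x a i) else fnot (meets (x a i))

theorem mem_ext {I : Type} {x : I → ℕ → Set P} {a : I} {s : List Bool} {p : P} :
    p ∈ Ext x a s ↔ ∀ i : Fin s.length,
      p ∈ (if s.get i = true then meets (x a i) else fnot (meets (x a i))) := Iff.rfl

/-- Points with different indices are different. -/
def Distinct {I : Type} (x : I → ℕ → Set P) : Set P :=
  fall fun a => fall fun b => fall fun _ : a ≠ b =>
    fex fun s => fand (Ext x a s) (fnot (Ext x b s))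

/-- The space with the points `z : Z` and the base of open sets `{z | mem z b}`, `b : B`, is a
`Δ`-space: for every function `f` from the points to the natural numbers there are open sets
`U n` (unions of the basic sets with index in `W n`) such that every point `z` belongs to
`U (f z)` and to only finitely many `U n`. -/
def DeltaSpace {Z B : Type} (mem : Z → B → Set P) : Set P :=
  fall fun f : Z → ℕ → Set P => fimp (Pool.Agent.W876.Two.Gen.IsFun f)
    (fex fun W : ℕ → B → Set P =>
      fand
        (fall fun z => fall fun n =>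
          fimp (meets (f z n)) (fex fun b => fand (mem z b) (meets (W n b))))
        (fall fun z => fex fun m => fall fun n => fall fun _ : m ≤ n =>
          fnot (fex fun b => fand (mem z b) (meets (W n b)))))

end

/-! ### Facts and conditions -/

/-- the pieces of information -/
inductive Fact (J I : Type) where
  | co (a : I) (n : ℕ) (b : Bool)
  | op (j : J) (s : List Bool) (n : ℕ)
  | pr (j : J) (a : I) (m : ℕ)

variable {J I : Type}

/-- consistent finite sets of facts -/
structure Valid (g : J → I → ℕ → Set (Finset (Fact J I))) (p : Finset (Fact J I)) : Prop where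
  co : ∀ a n b b', Fact.co a n b ∈ p → Fact.co a n b' ∈ p → b = b'
  sep : ∀ j a m s n, Fact.pr j a m ∈ p → Fact.op j s n ∈ p → m ≤ n →
    ∃ i : Fin s.length, Fact.co a i (!s.get i) ∈ p
  dec : ∀ j a m, Fact.pr j a m ∈ p → ∃ k < m, ∃ r ∈ g j a k, r ⊆ p

/-- the conditions -/
def Cd (g : J → I → ℕ → Set (Finset (Fact J I))) : Type := {p : Finset (Fact J I) // Valid g p}

variable {g : J → I → ℕ → Set (Finset (Fact J I))}

instance : Preorder (Cd g) where
  le p q := q.1 ⊆ p.1
  le_refl p := Finset.Subset.refl _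
  le_trans p q r h h' := Finset.Subset.trans h' h

theorem le_def {p q : Cd g} : p ≤ q ↔ q.1 ⊆ p.1 := Iff.rfl

instance : Nonempty (Cd g) := ⟨⟨∅, by constructor <;> simp⟩⟩

/-- the generic points -/
def pt (a : I) (n : ℕ) : Set (Cd g) := {p | Fact.co a n true ∈ p.1}

theorem mem_pt_of_meets {a : I} {n : ℕ} {p : Cd g} {b : Bool} (h : p ∈ meets (pt (g := g) a n))
    (hp : Fact.co a n b ∈ p.1) : b = true := by
  obtain ⟨r, hr, s, hs, hrs⟩ := h p le_rfl
  exact r.2.co a n b true (hr hp) (hrs hs)

theorem not_pt {a : I} {n : ℕ} {p : Cd g} (hp : Fact.co a n false ∈ p.1) :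
    p ∈ fnot (meets (pt (g := g) a n)) := by
  intro q hq h
  have := mem_pt_of_meets h (hq hp)
  exact absurd this (by simp)

theorem ext_of {a : I} {s : List Bool} {p : Cd g}
    (h : ∀ i : Fin s.length, Fact.co a i (s.get i) ∈ p.1) : p ∈ Ext (pt (g := g)) a s := by
  rw [mem_ext]
  intro i
  have hi := h i
  by_cases hb : s.get i = true
  · rw [if_pos hb]
    rw [hb] at hi
    exact meets_of_mem hi
  · rw [if_neg hb]
    have hb' : s.get i = false := by simpa using hb
    rw [hb'] at hi
    exact not_pt hi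

theorem eq_of_ext {a : I} {s : List Bool} {p : Cd g} (h : p ∈ Ext (pt (g := g)) a s)
    (i : Fin s.length) {b : Bool} (hp : Fact.co a i b ∈ p.1) : b = s.get i := by
  have hi := mem_ext.1 h i
  by_cases hb : s.get i = true
  · rw [if_pos hb] at hi
    rw [hb]
    exact mem_pt_of_meets hi hp
  · rw [if_neg hb] at hi
    have hb' : s.get i = false := by simpa using hb
    rw [hb']
    by_contra hne
    have : b = true := by simpa using hne
    subst this
    exact hi p le_rfl (meets_of_mem hp)

theorem ext_down {a : I} {s : List Bool} {p q : Cd g} (h : p ∈ Ext (pt (g := g)) a s)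
    (hq : q ≤ p) : q ∈ Ext (pt (g := g)) a s := by
  rw [mem_ext]
  intro i
  have hi := mem_ext.1 h i
  by_cases hb : s.get i = true
  · rw [if_pos hb] at hi ⊢
    exact meets_down hi hq
  · rw [if_neg hb] at hi ⊢
    exact fnot_down hi hq

/-- adding values of the generic points -/
theorem exists_bits (p : Cd g) (S : Finset (I × ℕ)) (v : I → ℕ → Bool) :
    ∃ q : Cd g, q ≤ p ∧ (∀ x ∈ S, ∃ b, Fact.co x.1 x.2 b ∈ q.1) ∧
      (∀ x ∈ S, (∀ b, Fact.co x.1 x.2 b ∉ p.1) → Fact.co x.1 x.2 (v x.1 x.2) ∈ q.1) ∧
      (∀ j s n, Fact.op j s n ∈ q.1 → Fact.op j s n ∈ p.1) ∧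
      (∀ j a m, Fact.pr j a m ∈ q.1 → Fact.pr j a m ∈ p.1) := by
  let S' : Finset (I × ℕ) := S.filter fun x => ∀ b, Fact.co x.1 x.2 b ∉ p.1
  let N : Finset (Fact J I) := S'.image fun x => Fact.co x.1 x.2 (v x.1 x.2)
  have hN : ∀ f, f ∈ N ↔ ∃ x ∈ S, (∀ b, Fact.co x.1 x.2 b ∉ p.1) ∧
      Fact.co x.1 x.2 (v x.1 x.2) = f := by
    intro f
    simp only [N, S', Finset.mem_image, Finset.mem_filter, and_assoc]
  have hval : Valid g (p.1 ∪ N) := by
    constructor
    · intro a n b b' h1 h2
      rw [Finset.mem_union, hN] at h1 h2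
      rcases h1 with h1 | ⟨x, _, hx, h1⟩ <;> rcases h2 with h2 | ⟨y, _, hy, h2⟩
      · exact p.2.co a n b b' h1 h2
      · cases h2
        exact absurd h1 (hy b)
      · cases h1
        exact absurd h2 (hx b')
      · obtain ⟨x1, x2⟩ := x
        obtain ⟨y1, y2⟩ := y
        simp only [Fact.co.injEq] at h1 h2
        obtain ⟨rfl, rfl, rfl⟩ := h1
        obtain ⟨rfl, rfl, rfl⟩ := h2
        rfl
    · intro j a m s n h1 h2 hmn
      rw [Finset.mem_union, hN] at h1 h2
      rcases h1 with h1 | ⟨x, _, _, h1⟩
      · rcases h2 with h2 | ⟨x, _, _, h2⟩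
        · obtain ⟨i, hi⟩ := p.2.sep j a m s n h1 h2 hmn
          exact ⟨i, Finset.mem_union_left _ hi⟩
        · cases h2
      · cases h1
    · intro j a m h1
      rw [Finset.mem_union, hN] at h1
      rcases h1 with h1 | ⟨x, _, _, h1⟩
      · obtain ⟨k, hk, r, hr, hrp⟩ := p.2.dec j a m h1
        exact ⟨k, hk, r, hr, hrp.trans Finset.subset_union_left⟩
      · cases h1
  refine ⟨⟨p.1 ∪ N, hval⟩, Finset.subset_union_left, ?_, ?_, ?_, ?_⟩
  · intro x hx
    by_cases h : ∀ b, Fact.co x.1 x.2 b ∉ p.1
    · exact ⟨_, Finset.mem_union_right _ ((hN _).2 ⟨x, hx, h, rfl⟩)⟩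
    · push Not at h
      obtain ⟨b, hb⟩ := h
      exact ⟨b, Finset.mem_union_left _ hb⟩
  · intro x hx h
    exact Finset.mem_union_right _ ((hN _).2 ⟨x, hx, h, rfl⟩)
  · intro j s n h
    rcases Finset.mem_union.1 h with h | h
    · exact h
    · obtain ⟨x, _, _, hx⟩ := (hN _).1 h
      cases hx
  · intro j a m h
    rcases Finset.mem_union.1 h with h | h
    · exact h
    · obtain ⟨x, _, _, hx⟩ := (hN _).1 h
      cases hx

/-- a bound for the positions mentioned -/
theorem exists_bound (p : Finset (Fact J I)) :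
    ∃ L : ℕ, (∀ a n b, Fact.co a n b ∈ p → n < L) ∧ (∀ j s n, Fact.op j s n ∈ p → n < L) := by
  induction p using Finset.induction_on with
  | empty => exact ⟨0, by simp, by simp⟩
  | insert f p _ ih =>
    obtain ⟨L, h1, h2⟩ := ih
    cases f with
    | co a n b =>
      refine ⟨max L (n + 1), fun a' n' b' h => ?_, fun j s n' h => ?_⟩
      · rcases Finset.mem_insert.1 h with h | h
        · cases h
          exact lt_of_lt_of_le (Nat.lt_succ_self _) (le_max_right _ _)
        · exact lt_of_lt_of_le (h1 a' n' b' h) (le_max_left _ _)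
      · rcases Finset.mem_insert.1 h with h | h
        · cases h
        · exact lt_of_lt_of_le (h2 j s n' h) (le_max_left _ _)
    | op j s n =>
      refine ⟨max L (n + 1), fun a' n' b' h => ?_, fun j' s' n' h => ?_⟩
      · rcases Finset.mem_insert.1 h with h | h
        · cases h
        · exact lt_of_lt_of_le (h1 a' n' b' h) (le_max_left _ _)
      · rcases Finset.mem_insert.1 h with h | h
        · cases h
          exact lt_of_lt_of_le (Nat.lt_succ_self _) (le_max_right _ _)
        · exact lt_of_lt_of_le (h2 j' s' n' h) (le_max_left _ _)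
    | pr j a m =>
      refine ⟨L, fun a' n' b' h => ?_, fun j' s' n' h => ?_⟩
      · rcases Finset.mem_insert.1 h with h | h
        · cases h
        · exact h1 a' n' b' h
      · rcases Finset.mem_insert.1 h with h | h
        · cases h
        · exact h2 j' s' n' h

/-- the points with a promise -/
theorem exists_points (p : Finset (Fact J I)) :
    ∃ S : Finset I, ∀ j a m, Fact.pr j a m ∈ p → a ∈ S := by
  induction p using Finset.induction_on with
  | empty => exact ⟨∅, by simp⟩
  | insert f p _ ih =>
    obtain ⟨S, h1⟩ := ih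
    cases f with
    | co a n b =>
      refine ⟨S, fun j' a' m' h => ?_⟩
      rcases Finset.mem_insert.1 h with h | h
      · cases h
      · exact h1 j' a' m' h
    | op j s n =>
      refine ⟨S, fun j' a' m' h => ?_⟩
      rcases Finset.mem_insert.1 h with h | h
      · cases h
      · exact h1 j' a' m' h
    | pr j a m =>
      refine ⟨insert a S, fun j' a' m' h => ?_⟩
      rcases Finset.mem_insert.1 h with h | h
      · cases h
        exact Finset.mem_insert_self _ _
      · exact Finset.mem_insert_of_mem (h1 j' a' m' h)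

/-- adding an open set containing the point `a` -/
theorem exists_open (p : Cd g) (j : J) (a : I) (n : ℕ) (h : ∀ m, Fact.pr j a m ∈ p.1 → n < m) :
    ∃ q : Cd g, q ≤ p ∧ ∃ s, (∀ i : Fin s.length, Fact.co a i (s.get i) ∈ q.1) ∧
      Fact.op j s n ∈ q.1 := by
  obtain ⟨L, hL, -⟩ := exists_bound p.1
  obtain ⟨S, hS⟩ := exists_points p.1
  obtain ⟨q, hqp, hq1, hq2, hq3, hq4⟩ := exists_bits p (((insert a S) ×ˢ Finset.range (L + 1)))
    (fun b _ => decide (b = a))
  -- the initial segment of the point `a`
  have hbit : ∀ i, i < L + 1 → ∃ b, Fact.co a i b ∈ q.1 := fun i hi =>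
    hq1 (a, i) (Finset.mem_product.2 ⟨Finset.mem_insert_self _ _, Finset.mem_range.2 hi⟩)
  choose! v hv using hbit
  let s : List Bool := List.ofFn fun i : Fin (L + 1) => v i
  have hslen : s.length = L + 1 := by simp [s]
  have hs : ∀ i : Fin s.length, Fact.co a i (s.get i) ∈ q.1 := by
    intro i
    have hi : (i : ℕ) < L + 1 := hslen ▸ i.2
    have : s.get i = v i := by
      show (List.ofFn fun i : Fin (L + 1) => v i)[i.1] = v i
      rw [List.getElem_ofFn]
    rw [this]
    exact hv i hi
  have hLs : L < s.length := by rw [hslen]; exact Nat.lt_succ_self L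
  have htop : s.get ⟨L, hLs⟩ = true := by
    have h1 := hs ⟨L, hLs⟩
    have h2 := hq2 (a, L) (Finset.mem_product.2 ⟨Finset.mem_insert_self _ _,
      Finset.mem_range.2 (Nat.lt_succ_self L)⟩) (fun b hb => lt_irrefl _ (hL _ _ _ hb))
    have h3 := q.2.co _ _ _ _ h1 h2
    simpa using h3
  have hval : Valid g (insert (Fact.op j s n) q.1) := by
    constructor
    · intro a' n' b b' h1 h2
      rcases Finset.mem_insert.1 h1 with h1 | h1
      · cases h1
      rcases Finset.mem_insert.1 h2 with h2 | h2
      · cases h2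
      exact q.2.co a' n' b b' h1 h2
    · intro j' a' m s' n' h1 h2 hmn
      rcases Finset.mem_insert.1 h1 with h1 | h1
      · cases h1
      rcases Finset.mem_insert.1 h2 with h2 | h2
      · cases h2
        have h3 := hq4 _ _ _ h1
        by_cases haa : a' = a
        · subst haa
          exact absurd (h m h3) (not_lt.2 hmn)
        · refine ⟨⟨L, hLs⟩, Finset.mem_insert_of_mem ?_⟩
          rw [htop]
          have h4 := hq2 (a', L) (Finset.mem_product.2 ⟨Finset.mem_insert_of_mem (hS _ _ _ h3),
            Finset.mem_range.2 (Nat.lt_succ_self L)⟩) (fun b hb => lt_irrefl _ (hL _ _ _ hb))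
          simpa [haa] using h4
      · obtain ⟨i, hi⟩ := q.2.sep j' a' m s' n' h1 h2 hmn
        exact ⟨i, Finset.mem_insert_of_mem hi⟩
    · intro j' a' m h1
      rcases Finset.mem_insert.1 h1 with h1 | h1
      · cases h1
      obtain ⟨k, hk, r, hr, hrp⟩ := q.2.dec j' a' m h1
      exact ⟨k, hk, r, hr, hrp.trans (Finset.subset_insert _ _)⟩
  exact ⟨⟨_, hval⟩, (Finset.Subset.trans hqp (Finset.subset_insert _ _)), s,
    fun i => Finset.mem_insert_of_mem (hs i), Finset.mem_insert_self _ _⟩

/-- adding a promise -/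
theorem exists_promise (p : Cd g) (j : J) (a : I) (k : ℕ) (h : ∃ r ∈ g j a k, r ⊆ p.1) :
    ∃ q : Cd g, q ≤ p ∧ ∃ m, Fact.pr j a m ∈ q.1 := by
  obtain ⟨L, -, hL⟩ := exists_bound p.1
  have hval : Valid g (insert (Fact.pr j a (max L (k + 1))) p.1) := by
    constructor
    · intro a' n' b b' h1 h2
      rcases Finset.mem_insert.1 h1 with h1 | h1
      · cases h1
      rcases Finset.mem_insert.1 h2 with h2 | h2
      · cases h2
      exact p.2.co a' n' b b' h1 h2
    · intro j' a' m s' n' h1 h2 hmn
      rcases Finset.mem_insert.1 h2 with h2 | h2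
      · cases h2
      rcases Finset.mem_insert.1 h1 with h1 | h1
      · cases h1
        exact absurd (hL _ _ _ h2) (not_lt.2 ((le_max_left _ _).trans hmn))
      · obtain ⟨i, hi⟩ := p.2.sep j' a' m s' n' h1 h2 hmn
        exact ⟨i, Finset.mem_insert_of_mem hi⟩
    · intro j' a' m h1
      rcases Finset.mem_insert.1 h1 with h1 | h1
      · cases h1
        obtain ⟨r, hr, hrp⟩ := h
        exact ⟨k, lt_of_lt_of_le (Nat.lt_succ_self k) (le_max_right _ _), r, hr,
          hrp.trans (Finset.subset_insert _ _)⟩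
      · obtain ⟨k', hk, r, hr, hrp⟩ := p.2.dec j' a' m h1
        exact ⟨k', hk, r, hr, hrp.trans (Finset.subset_insert _ _)⟩
  exact ⟨⟨_, hval⟩, Finset.subset_insert _ _, _, Finset.mem_insert_self _ _⟩

/-- different indices give different points -/
theorem distinct (p : Cd g) : p ∈ Distinct (pt (g := g)) := by
  intro a b hab
  rw [mem_fex]
  intro q _
  obtain ⟨L, hL, -⟩ := exists_bound q.1
  obtain ⟨r, hrq, h1, h2, -, -⟩ := exists_bits q (({a, b} : Finset I) ×ˢ Finset.range (L + 1))
    (fun c _ => decide (c = a))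
  have hbit : ∀ i, i < L + 1 → ∃ b, Fact.co a i b ∈ r.1 := fun i hi =>
    h1 (a, i) (Finset.mem_product.2 ⟨by simp, Finset.mem_range.2 hi⟩)
  choose! v hv using hbit
  let s : List Bool := List.ofFn fun i : Fin (L + 1) => v i
  have hslen : s.length = L + 1 := by simp [s]
  have hs : ∀ i : Fin s.length, Fact.co a i (s.get i) ∈ r.1 := by
    intro i
    have hi : (i : ℕ) < L + 1 := hslen ▸ i.2
    have : s.get i = v i := by
      show (List.ofFn fun i : Fin (L + 1) => v i)[i.1] = v i
      rw [List.getElem_ofFn]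
    rw [this]
    exact hv i hi
  have hLs : L < s.length := by rw [hslen]; exact Nat.lt_succ_self L
  have e1 := h2 (a, L) (Finset.mem_product.2 ⟨by simp, Finset.mem_range.2 (Nat.lt_succ_self L)⟩)
    (fun b hb => lt_irrefl _ (hL _ _ _ hb))
  have e2 := h2 (b, L) (Finset.mem_product.2 ⟨by simp, Finset.mem_range.2 (Nat.lt_succ_self L)⟩)
    (fun b hb => lt_irrefl _ (hL _ _ _ hb))
  refine ⟨r, hrq, s, ext_of hs, ?_⟩
  intro t ht hext
  have e3 := eq_of_ext hext ⟨L, hLs⟩ (ht e2)
  have e4 := r.2.co _ _ _ _ (hs ⟨L, hLs⟩) e1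
  rw [← e3] at e4
  simp [hab.symm] at e4

end Pool.Agent.W876.Dlt
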