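import Mathlib
import Pool.Agent.W876.Dlt.Poset

/-!
# Uniformizing uncountable families of conditions, amalgamation
-/

namespace Pool.Agent.W876.Dlt

open Cardinal Pool.Agent.Helper126.Sus.Forc

open scoped Classical

set_option linter.unusedSectionVars false

variable {J I : Type}

/-- the indices occurring in a fact -/
noncomputable def Fact.ind : Fact J I → Finset (J ⊕ I)
  | .co a _ _ => {Sum.inr a}
  | .op j _ _ => {Sum.inl j}
  | .pr j a _ => {Sum.inl j, Sum.inr a}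

/-- the indices occurring in a set of facts -/
noncomputable def Ind (p : Finset (Fact J I)) : Finset (J ⊕ I) := p.biUnion Fact.ind

theorem ind_sub {p : Finset (Fact J I)} {f : Fact J I} (hf : f ∈ p) {x : J ⊕ I}
    (hx : x ∈ f.ind) : x ∈ Ind p := Finset.mem_biUnion.2 ⟨f, hf, hx⟩

theorem ind_co {p : Finset (Fact J I)} {a : I} {n : ℕ} {b : Bool} (h : Fact.co a n b ∈ p) :
    Sum.inr a ∈ Ind p := ind_sub h (by simp [Fact.ind])

theorem ind_op {p : Finset (Fact J I)} {j : J} {s : List Bool} {n : ℕ} (h : Fact.op j s n ∈ p) :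
    Sum.inl j ∈ Ind p := ind_sub h (by simp [Fact.ind])

theorem ind_pr1 {p : Finset (Fact J I)} {j : J} {a : I} {m : ℕ} (h : Fact.pr j a m ∈ p) :
    Sum.inl j ∈ Ind p := ind_sub h (by simp [Fact.ind])

theorem ind_pr2 {p : Finset (Fact J I)} {j : J} {a : I} {m : ℕ} (h : Fact.pr j a m ∈ p) :
    Sum.inr a ∈ Ind p := ind_sub h (by simp [Fact.ind])

/-- replacing the indices by their codes -/
def Fact.code (c : J ⊕ I → ℕ) : Fact J I → Fact ℕ ℕ
  | .co a n b => .co (c (Sum.inr a)) n b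
  | .op j s n => .op (c (Sum.inl j)) s n
  | .pr j a m => .pr (c (Sum.inl j)) (c (Sum.inr a)) m

instance : Countable (Fact ℕ ℕ) := by
  let f : Fact ℕ ℕ → ((ℕ × ℕ) × Bool) ⊕ ((ℕ × List Bool) × ℕ) ⊕ ((ℕ × ℕ) × ℕ) := fun x =>
    match x with
    | .co a n b => Sum.inl ((a, n), b)
    | .op j s n => Sum.inr (Sum.inl ((j, s), n))
    | .pr j a m => Sum.inr (Sum.inr ((j, a), m))
  refine Function.Injective.countable (f := f) ?_
  intro x y h
  cases x <;> cases y <;> simp_all [f]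

theorem exists_codes {X D : Type} (A : D → Finset X) (S : Set D) (hS : ¬ S.Countable) :
    ∃ S' ⊆ S, ¬ S'.Countable ∧ ∃ (R : Finset X) (c : D → X → ℕ), (∀ y ∈ S', R ⊆ A y) ∧
      (∀ y ∈ S', ∀ y' ∈ S', y ≠ y' → ∀ x ∈ A y, x ∈ A y' → x ∈ R) ∧
      (∀ y, Set.InjOn (c y) (A y)) ∧ (∀ y y', ∀ x ∈ R, c y x = c y' x) := by
  obtain ⟨S', R, h1, h2, h3, h4⟩ := Pool.Agent.Helper126.delta_system A S hS
  obtain ⟨cR, hcR⟩ := Set.countable_iff_exists_injOn.1 (Finset.countable_toSet R)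
  have hA : ∀ y, ∃ f : X → ℕ, Set.InjOn f (A y : Set X) := fun y =>
    Set.countable_iff_exists_injOn.1 (Finset.countable_toSet (A y))
  choose cA hcA using hA
  refine ⟨S', h1, h2, R, fun y x => if x ∈ R then 2 * cR x else 2 * cA y x + 1, h3, h4, ?_, ?_⟩
  · intro y x hx x' hx' h
    by_cases k1 : x ∈ R <;> by_cases k2 : x' ∈ R
    · simp only [if_pos k1, if_pos k2] at h
      exact hcR k1 k2 (by omega)
    · simp only [if_pos k1, if_neg k2] at h
      omega
    · simp only [if_neg k1, if_pos k2] at h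
      omega
    · simp only [if_neg k1, if_neg k2] at h
      exact hcA y hx hx' (by omega)
  · intro y y' x hx
    simp only [if_pos hx]

/-- a uniform uncountable subfamily -/
structure Uni {D : Type} (p : D → Finset (Fact J I)) (d0 d1 : D → J ⊕ I) (m : D → ℕ)
    (S : Set D) (A : D → Finset (J ⊕ I)) (R : Finset (J ⊕ I)) (c : D → J ⊕ I → ℕ) : Prop where
  ind : ∀ y, Ind (p y) ⊆ A y
  mem0 : ∀ y, d0 y ∈ A y
  mem1 : ∀ y, d1 y ∈ A y
  root : ∀ y ∈ S, R ⊆ A y
  inter : ∀ y ∈ S, ∀ y' ∈ S, y ≠ y' → ∀ x ∈ A y, x ∈ A y' → x ∈ R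
  inj : ∀ y, Set.InjOn (c y) (A y)
  same : ∀ y y', ∀ x ∈ R, c y x = c y' x
  type : ∀ y ∈ S, ∀ y' ∈ S, (p y).image (Fact.code (c y)) = (p y').image (Fact.code (c y'))
  code0 : ∀ y ∈ S, ∀ y' ∈ S, c y (d0 y) = c y' (d0 y')
  code1 : ∀ y ∈ S, ∀ y' ∈ S, c y (d1 y) = c y' (d1 y')
  num : ∀ y ∈ S, ∀ y' ∈ S, m y = m y'

theorem exists_uni {D : Type} (p : D → Finset (Fact J I)) (d0 d1 : D → J ⊕ I) (m : D → ℕ)
    (S : Set D) (hS : ¬ S.Countable) :
    ∃ S' ⊆ S, ¬ S'.Countable ∧ ∃ A R c, Uni p d0 d1 m S' A R c := by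
  let A : D → Finset (J ⊕ I) := fun y => insert (d0 y) (insert (d1 y) (Ind (p y)))
  obtain ⟨S1, h1, h2, R, c, h3, h4, h5, h6⟩ := exists_codes A S hS
  obtain ⟨v, hv⟩ := Pool.Agent.Helper126.uncountable_fiber
    (fun y => ((p y).image (Fact.code (c y)), c y (d0 y), c y (d1 y), m y)) S1 h2
  refine ⟨{y | y ∈ S1 ∧ _ = v}, fun y hy => h1 hy.1, hv, A, R, c, ?_⟩
  have key : ∀ y ∈ {y | y ∈ S1 ∧ ((p y).image (Fact.code (c y)), c y (d0 y), c y (d1 y), m y) = v},
      ∀ y' ∈ {y | y ∈ S1 ∧ ((p y).image (Fact.code (c y)), c y (d0 y), c y (d1 y), m y) = v},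
      ((p y).image (Fact.code (c y)), c y (d0 y), c y (d1 y), m y) =
      ((p y').image (Fact.code (c y')), c y' (d0 y'), c y' (d1 y'), m y') :=
    fun y hy y' hy' => hy.2.trans hy'.2.symm
  exact
    { ind := fun y => (Finset.subset_insert _ _).trans (Finset.subset_insert _ _)
      mem0 := fun y => Finset.mem_insert_self _ _
      mem1 := fun y => Finset.mem_insert_of_mem (Finset.mem_insert_self _ _)
      root := fun y hy => h3 y hy.1
      inter := fun y hy y' hy' => h4 y hy.1 y' hy'.1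
      inj := h5
      same := h6
      type := fun y hy y' hy' => congrArg (fun t => t.1) (key y hy y' hy')
      code0 := fun y hy y' hy' => congrArg (fun t => t.2.1) (key y hy y' hy')
      code1 := fun y hy y' hy' => congrArg (fun t => t.2.2.1) (key y hy y' hy')
      num := fun y hy y' hy' => congrArg (fun t => t.2.2.2) (key y hy y' hy') }

/-- the index with the same code -/
noncomputable def mir (A' : Finset (J ⊕ I)) (c c' : J ⊕ I → ℕ) (a : I) : I :=
  if h : ∃ a', Sum.inr a' ∈ A' ∧ c' (Sum.inr a') = c (Sum.inr a) then h.choose else a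

theorem mir_eq {A' : Finset (J ⊕ I)} {c c' : J ⊕ I → ℕ} (hc' : Set.InjOn c' A') {a a' : I}
    (h1 : Sum.inr a' ∈ A') (h2 : c' (Sum.inr a') = c (Sum.inr a)) : mir A' c c' a = a' := by
  have h : ∃ a', Sum.inr a' ∈ A' ∧ c' (Sum.inr a') = c (Sum.inr a) := ⟨a', h1, h2⟩
  rw [mir, dif_pos h]
  have h3 := h.choose_spec
  have := hc' h3.1 h1 (h3.2.trans h2.symm)
  exact Sum.inr.inj this

section

variable {D : Type} {p : D → Finset (Fact J I)} {d0 d1 : D → J ⊕ I} {m : D → ℕ}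
  {S : Set D} {A : D → Finset (J ⊕ I)} {R : Finset (J ⊕ I)} {c : D → J ⊕ I → ℕ}

theorem Uni.mir_co (U : Uni p d0 d1 m S A R c) {y y' : D} (hy : y ∈ S) (hy' : y' ∈ S)
    {a : I} {n : ℕ} {b : Bool} (h : Fact.co a n b ∈ p y) :
    Fact.co (mir (A y') (c y) (c y') a) n b ∈ p y' := by
  have h1 : Fact.code (c y) (Fact.co a n b) ∈ (p y').image (Fact.code (c y')) := by
    rw [← U.type y hy y' hy']
    exact Finset.mem_image_of_mem _ h
  obtain ⟨f, hf, hfe⟩ := Finset.mem_image.1 h1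
  cases f with
  | co a' n' b' =>
    simp only [Fact.code, Fact.co.injEq] at hfe
    obtain ⟨e1, rfl, rfl⟩ := hfe
    rw [mir_eq (U.inj y') (U.ind y' (ind_co hf)) e1]
    exact hf
  | op j s n' => simp [Fact.code] at hfe
  | pr j a' m' => simp [Fact.code] at hfe

theorem Uni.mir_pr (U : Uni p d0 d1 m S A R c) {y y' : D} (hy : y ∈ S) (hy' : y' ∈ S)
    {j : J} {a : I} {n : ℕ} (hj : Sum.inl j ∈ R) (h : Fact.pr j a n ∈ p y) :
    Fact.pr j (mir (A y') (c y) (c y') a) n ∈ p y' := by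
  have h1 : Fact.code (c y) (Fact.pr j a n) ∈ (p y').image (Fact.code (c y')) := by
    rw [← U.type y hy y' hy']
    exact Finset.mem_image_of_mem _ h
  obtain ⟨f, hf, hfe⟩ := Finset.mem_image.1 h1
  cases f with
  | pr j' a' n' =>
    simp only [Fact.code, Fact.pr.injEq] at hfe
    obtain ⟨e0, e1, rfl⟩ := hfe
    have e2 : j' = j := by
      rw [U.same y y' _ hj] at e0
      exact Sum.inl.inj (U.inj y' (U.ind y' (ind_pr1 hf)) (U.root y' hy' hj) e0)
    subst e2
    rw [mir_eq (U.inj y') (U.ind y' (ind_pr2 hf)) e1]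
    exact hf
  | op j' s n' => simp [Fact.code] at hfe
  | co a' n' b' => simp [Fact.code] at hfe

theorem Uni.mir_op (U : Uni p d0 d1 m S A R c) {y y' : D} (hy : y ∈ S) (hy' : y' ∈ S)
    {j : J} {s : List Bool} {n : ℕ} (hj : Sum.inl j ∈ R) (h : Fact.op j s n ∈ p y) :
    Fact.op j s n ∈ p y' := by
  have h1 : Fact.code (c y) (Fact.op j s n) ∈ (p y').image (Fact.code (c y')) := by
    rw [← U.type y hy y' hy']
    exact Finset.mem_image_of_mem _ h
  obtain ⟨f, hf, hfe⟩ := Finset.mem_image.1 h1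
  cases f with
  | op j' s' n' =>
    simp only [Fact.code, Fact.op.injEq] at hfe
    obtain ⟨e0, rfl, rfl⟩ := hfe
    have e2 : j' = j := by
      rw [U.same y y' _ hj] at e0
      exact Sum.inl.inj (U.inj y' (U.ind y' (ind_op hf)) (U.root y' hy' hj) e0)
    subst e2
    exact hf
  | pr j' s n' => simp [Fact.code] at hfe
  | co a' n' b' => simp [Fact.code] at hfe

theorem Uni.mir_root (U : Uni p d0 d1 m S A R c) {y y' : D} (hy' : y' ∈ S)
    {a : I} (ha : Sum.inr a ∈ R) : mir (A y') (c y) (c y') a = a :=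
  mir_eq (U.inj y') (U.root y' hy' ha) (U.same y' y _ ha)

end

variable {g : J → I → ℕ → Set (Finset (Fact J I))}

/-- amalgamation -/
theorem merge (p q : Cd g) (A : Finset (J ⊕ I)) (hA : Ind p.1 ⊆ A) (R : Finset (J ⊕ I))
    (hR : ∀ x ∈ A, x ∈ Ind q.1 → x ∈ R) (μ : I → I) (h0 : ∀ a, Sum.inr a ∈ R → μ a = a)
    (h1 : ∀ a n b, Fact.co a n b ∈ p.1 → Fact.co (μ a) n b ∈ q.1)
    (h2 : ∀ j a m, Sum.inl j ∈ R → Fact.pr j a m ∈ p.1 → Fact.pr j (μ a) m ∈ q.1)
    (h3 : ∀ j s n, Sum.inl j ∈ R → Fact.op j s n ∈ p.1 → Fact.op j s n ∈ q.1) :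
    ∃ t : Cd g, t ≤ p ∧ t ≤ q ∧
      ∀ a, Sum.inr a ∈ A → ∀ n b, Fact.co (μ a) n b ∈ q.1 → Fact.co a n b ∈ t.1 := by
  -- the new bits
  let N : Finset (Fact J I) := A.biUnion fun x => match x with
    | Sum.inl _ => ∅
    | Sum.inr a => (q.1.filter fun f => ∃ n b, f = Fact.co (μ a) n b).image fun f => match f with
        | .co _ n b => Fact.co a n b
        | f => f
  have hN : ∀ f, f ∈ N ↔ ∃ a n b, Sum.inr a ∈ A ∧ Fact.co (μ a) n b ∈ q.1 ∧
      f = Fact.co a n b := by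
    intro f
    simp only [N, Finset.mem_biUnion]
    constructor
    · rintro ⟨x, hx, hf⟩
      cases x with
      | inl j => simp at hf
      | inr a =>
        simp only [Finset.mem_image, Finset.mem_filter] at hf
        obtain ⟨f', ⟨hf', n, b, rfl⟩, rfl⟩ := hf
        exact ⟨a, n, b, hx, hf', rfl⟩
    · rintro ⟨a, n, b, ha, hq, rfl⟩
      refine ⟨Sum.inr a, ha, ?_⟩
      simp only [Finset.mem_image, Finset.mem_filter]
      exact ⟨Fact.co (μ a) n b, ⟨hq, n, b, rfl⟩, rfl⟩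
  -- every bit of the union comes from `q`
  have hco : ∀ a n b, Fact.co a n b ∈ q.1 ∪ p.1 ∪ N →
      (Sum.inr a ∈ A → Fact.co (μ a) n b ∈ q.1) ∧ (Sum.inr a ∉ A → Fact.co a n b ∈ q.1) := by
    intro a n b h
    rcases Finset.mem_union.1 h with h | h
    · rcases Finset.mem_union.1 h with h | h
      · refine ⟨fun ha => ?_, fun _ => h⟩
        rw [h0 a (hR _ ha (ind_co h))]
        exact h
      · exact ⟨fun _ => h1 a n b h, fun ha => absurd (hA (ind_co h)) ha⟩
    · obtain ⟨a', n', b', ha', hq', he⟩ := (hN _).1 h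
      simp only [Fact.co.injEq] at he
      obtain ⟨rfl, rfl, rfl⟩ := he
      exact ⟨fun _ => hq', fun ha => absurd ha' ha⟩
  have hpr : ∀ j a m, Fact.pr j a m ∈ q.1 ∪ p.1 ∪ N → Fact.pr j a m ∈ q.1 ∨ Fact.pr j a m ∈ p.1 := by
    intro j a m h
    rcases Finset.mem_union.1 h with h | h
    · exact Finset.mem_union.1 h
    · obtain ⟨a', n', b', ha', hq', he⟩ := (hN _).1 h
      cases he
  have hop : ∀ j s n, Fact.op j s n ∈ q.1 ∪ p.1 ∪ N → Fact.op j s n ∈ q.1 ∨ Fact.op j s n ∈ p.1 := by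
    intro j a m h
    rcases Finset.mem_union.1 h with h | h
    · exact Finset.mem_union.1 h
    · obtain ⟨a', n', b', ha', hq', he⟩ := (hN _).1 h
      cases he
  have hq : q.1 ⊆ q.1 ∪ p.1 ∪ N := Finset.subset_union_left.trans Finset.subset_union_left
  have hp : p.1 ⊆ q.1 ∪ p.1 ∪ N := Finset.subset_union_right.trans Finset.subset_union_left
  have hval : Valid g (q.1 ∪ p.1 ∪ N) := by
    constructor
    · intro a n b b' e1 e2
      have k1 := hco a n b e1
      have k2 := hco a n b' e2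
      by_cases ha : Sum.inr a ∈ A
      · exact q.2.co _ _ _ _ (k1.1 ha) (k2.1 ha)
      · exact q.2.co _ _ _ _ (k1.2 ha) (k2.2 ha)
    · intro j a m s n e1 e2 hmn
      rcases hpr _ _ _ e1 with e1 | e1
      · have e2' : Fact.op j s n ∈ q.1 := by
          rcases hop _ _ _ e2 with e2 | e2
          · exact e2
          · exact h3 j s n (hR _ (hA (ind_op e2)) (ind_pr1 e1)) e2
        obtain ⟨i, hi⟩ := q.2.sep j a m s n e1 e2' hmn
        exact ⟨i, hq hi⟩
      · rcases hop _ _ _ e2 with e2 | e2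
        · have hj : Sum.inl j ∈ R := hR _ (hA (ind_pr1 e1)) (ind_op e2)
          obtain ⟨i, hi⟩ := q.2.sep j (μ a) m s n (h2 j a m hj e1) e2 hmn
          exact ⟨i, Finset.mem_union_right _ ((hN _).2 ⟨a, _, _, hA (ind_pr2 e1), hi, rfl⟩)⟩
        · obtain ⟨i, hi⟩ := p.2.sep j a m s n e1 e2 hmn
          exact ⟨i, hp hi⟩
    · intro j a m e1
      rcases hpr _ _ _ e1 with e1 | e1
      · obtain ⟨k, hk, r, hr, hrp⟩ := q.2.dec j a m e1
        exact ⟨k, hk, r, hr, hrp.trans hq⟩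
      · obtain ⟨k, hk, r, hr, hrp⟩ := p.2.dec j a m e1
        exact ⟨k, hk, r, hr, hrp.trans hp⟩
  exact ⟨⟨_, hval⟩, hp, hq, fun a ha n b h =>
    Finset.mem_union_right _ ((hN _).2 ⟨a, n, b, ha, h, rfl⟩)⟩

/-- two members of a uniform family are compatible -/
theorem Uni.compat {D : Type} {p : D → Cd g} {d0 d1 : D → J ⊕ I} {m : D → ℕ}
    {S : Set D} {A : D → Finset (J ⊕ I)} {R : Finset (J ⊕ I)} {c : D → J ⊕ I → ℕ}
    (U : Uni (fun y => (p y).1) d0 d1 m S A R c) {y y' : D} (hy : y ∈ S) (hy' : y' ∈ S)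
    (hne : y ≠ y') : ∃ t : Cd g, t ≤ p y ∧ t ≤ p y' := by
  obtain ⟨t, h1, h2, -⟩ := merge (p y) (p y') (A y) (U.ind y) R
    (fun x hx hx' => U.inter y hy y' hy' hne x hx (U.ind y' hx'))
    (mir (A y') (c y) (c y')) (fun a ha => U.mir_root hy' ha)
    (fun a n b h => U.mir_co hy hy' h) (fun j a m hj h => U.mir_pr hy hy' hj h)
    (fun j s n hj h => U.mir_op hy hy' hj h)
  exact ⟨t, h1, h2⟩

theorem exists_two {D : Type} {S : Set D} (hS : ¬ S.Countable) :
    ∃ y ∈ S, ∃ y' ∈ S, y ≠ y' := by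
  by_contra hcon
  push Not at hcon
  exact hS (Set.Subsingleton.countable fun y hy y' hy' => hcon y hy y' hy')

/-- the countable chain condition -/
theorem ccc [Nonempty (J ⊕ I)] : Pool.Agent.W876.Two.Gen.Ccc (Cd g) := by
  intro Y f hY
  have hY' : ¬ (Set.univ : Set Y).Countable := by
    rw [Set.countable_univ_iff]; exact hY
  obtain ⟨S, -, hS, A, R, c, U⟩ := exists_uni (fun y => (f y).1)
    (fun _ => Classical.arbitrary _) (fun _ => Classical.arbitrary _) (fun _ => 0) _ hY'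
  obtain ⟨y, hy, y', hy', hne⟩ := exists_two hS
  obtain ⟨t, h1, h2⟩ := U.compat hy hy' hne
  exact ⟨y, y', hne, t, h1, h2⟩

end Pool.Agent.W876.Dlt
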