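import Mathlib
import Pool.Agent.W876.Dlt.Merge
import Pool.Agent.W876.Prox.Book

/-!
# The generic set is a `Δ`-set, its square is not
-/

namespace Pool.Agent.W876.Dlt

open Cardinal Pool.Agent.Helper126.Sus.Forc

open Pool.Agent.W876.Two.Gen (IsFun exists_antichain meets_fground exists_of_meets Ccc)

open Pool.Agent.W876.Prox.Omega (mk_K1 countable_Iio bounded)

open Pool.Agent.W876.Prox.Book (mk_arrow_le exists_enum Len mk_Len)

open scoped Classical

set_option linter.unusedSectionVars false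

/-- The basic open sets of the square of a space. -/
def Sq {P : Type} [Preorder P] {Z B : Type} (mem : Z → B → Set P) : Z × Z → B × B → Set P :=
  fun z b => fand (mem z.1 b.1) (mem z.2 b.2)

variable {J I : Type} {g : J → I → ℕ → Set (Finset (Fact J I))}

theorem op_down (j : J) (s : List Bool) (n : ℕ) :
    ∀ p ∈ {p : Cd g | Fact.op j s n ∈ p.1}, ∀ q ≤ p, q ∈ {p : Cd g | Fact.op j s n ∈ p.1} :=
  fun _ hp _ hq => hq hp

theorem delta [Nonempty (J ⊕ I)]
    (hg : ∀ N : I → ℕ → Set (Finset (Fact J I)), (∀ a k, (N a k).Countable) → ∃ j, g j = N)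
    (p : Cd g) : p ∈ DeltaSpace (Ext (pt (g := g))) := by
  have hP : Ccc (Cd g) := fun {Y} f hY => ccc f hY
  intro f
  refine mem_fimp.2 fun q _ hq => ⟨q, le_rfl, ?_⟩
  choose A hA1 hA2 hA3 using fun (a : I) (k : ℕ) =>
    exists_antichain hP {r : Cd g | r ∈ meets (f a k)}
  obtain ⟨j, hj⟩ := hg (fun a k => Subtype.val '' A a k) (fun a k => (hA2 a k).image _)
  have hbook : ∀ {a k} {s : Cd g}, (∃ r ∈ g j a k, r ⊆ s.1) → s ∈ meets (f a k) := by
    intro a k s ⟨r, hr, hrs⟩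
    rw [hj] at hr
    obtain ⟨r', hr', rfl⟩ := hr
    exact meets_down (hA1 a k hr') hrs
  refine mem_fex.2 fun q' hq' => ⟨q', le_rfl, fun n s => {p | Fact.op j s n ∈ p.1},
    fun a n => mem_fimp.2 fun r hr hrm => ⟨r, le_rfl, mem_fex.2 fun s hs => ?_⟩,
    fun a => mem_fex.2 fun r hr => ?_⟩
  · obtain ⟨t, ht, b, hb1, hb2⟩ := exists_open s j a n (fun m hm => by
      obtain ⟨k, hk, hrk⟩ := s.2.dec j a m hm
      have h1 : s ∈ meets (f a k) := hbook hrk
      obtain ⟨_, _, h3⟩ := mem_fimp.1 (hq.2 a k n) s (hs.trans (hr.trans hq'))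
        ⟨h1, meets_down hrm hs⟩
      have h3 : k = n := h3
      exact h3 ▸ hk)
    exact ⟨t, ht, b, ext_of hb1, meets_of_mem hb2⟩
  · obtain ⟨s1, hs1, k, hk⟩ := mem_fex.1 (hq.1 a) r (hr.trans hq')
    obtain ⟨c, hc, s2, h1, h2⟩ := hA3 a k s1 hk
    obtain ⟨s3, h3, m, hm⟩ := exists_promise s2 j a k ⟨c.1, by rw [hj]; exact ⟨c, hc, rfl⟩, h1⟩
    refine ⟨s3, h3.trans (h2.trans hs1), m, fun n hmn t ht hcon => ?_⟩
    obtain ⟨u, hu, b, hb1, hb2⟩ := mem_fex.1 hcon t le_rfl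
    obtain ⟨v, hv, hvop⟩ := exists_of_meets (op_down j b n) hb2
    obtain ⟨i, hi⟩ := v.2.sep j a m b n ((hv.trans (hu.trans ht)) hm) hvop hmn
    have := eq_of_ext (ext_down hb1 hv) i hi
    simp at this

section

variable {J : Type} {g : J → K1 × Bool → ℕ → Set (Finset (Fact J (K1 × Bool)))}

/-- an infinite part of an uncountable set lies below some member -/
theorem exists_above {S : Set K1} (hS : ¬ S.Countable) :
    ∃ η ∈ S, (S ∩ Set.Iio η).Infinite := by
  have hinf : S.Infinite := fun h => hS h.countable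
  obtain ⟨T, hT1, hT2, hT3⟩ : ∃ T ⊆ S, T.Infinite ∧ T.Countable := by
    have := hinf.to_subtype
    refine ⟨Set.range fun n => (Infinite.natEmbedding S n).1, ?_, ?_, Set.countable_range _⟩
    · rintro _ ⟨n, rfl⟩
      exact (Infinite.natEmbedding S n).2
    · exact Set.infinite_range_of_injective
        (Subtype.val_injective.comp (Infinite.natEmbedding S).injective)
  obtain ⟨b, hb⟩ := bounded T hT3
  have : ∃ η ∈ S, b < η := by
    by_contra hcon
    push Not at hcon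
    exact hS ((Pool.Agent.W876.Prox.Omega.countable_Iic b).mono hcon)
  obtain ⟨η, h1, h2⟩ := this
  exact ⟨η, h1, hT2.mono fun x hx => ⟨hT1 hx, (hb x hx).trans h2⟩⟩

theorem not_delta (p : Cd g) : p ∈ fnot (DeltaSpace (Sq (Ext (pt (g := g))))) := by
  intro q _ hD
  have he : ∀ η : K1, ∃ e : K1 → ℕ, Set.InjOn e (Set.Iio η) := fun η =>
    Set.countable_iff_exists_injOn.1 (countable_Iio η)
  choose e he using he
  let F : (K1 × Bool) × (K1 × Bool) → ℕ := fun z => e z.2.1 z.1.1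
  obtain ⟨q1, hq1, h1⟩ := mem_fimp.1 (hD fun z n => fground (F z = n)) q le_rfl
    ⟨fun z => mem_fex.2 fun r _ => ⟨r, le_rfl, F z, meets_fground.2 rfl⟩,
      fun z n n' => mem_fimp.2 fun r _ hr => ⟨r, le_rfl,
        (meets_fground.1 hr.1).symm.trans (meets_fground.1 hr.2)⟩⟩
  obtain ⟨r, hr, W, hW1, hW2⟩ := mem_fex.1 h1 q1 le_rfl
  choose c hc m hm using fun ξ : K1 => mem_fex.1 (hW2 ((ξ, false), (ξ, true))) r le_rfl
  have huniv : ¬ (Set.univ : Set K1).Countable := by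
    intro h
    have := Cardinal.le_aleph0_iff_set_countable.2 h
    rw [Cardinal.mk_univ, mk_K1] at this
    exact absurd this (not_le.2 aleph0_lt_aleph_one)
  obtain ⟨S, -, hS, A, R, cd, U⟩ := exists_uni (fun ξ => (c ξ).1)
    (fun ξ => Sum.inr (ξ, false)) (fun ξ => Sum.inr (ξ, true)) m _ huniv
  obtain ⟨η, hη, hinf⟩ := exists_above hS
  -- the two points
  obtain ⟨ξ, ⟨hξ, hξη⟩, hM⟩ : ∃ ξ ∈ S ∩ Set.Iio η, m η ≤ e η ξ := by
    by_contra hcon
    push Not at hcon
    refine hinf (Set.Finite.of_finite_image (f := e η) ?_ ?_)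
    · refine (Set.finite_Iio (m η)).subset ?_
      rintro _ ⟨x, hx, rfl⟩
      exact hcon x hx
    · exact (he η).mono Set.inter_subset_right
  have hξη' : ξ ≠ η := ne_of_lt hξη
  obtain ⟨q0, hq0ξ, hq0η⟩ := U.compat hξ hη hξη'
  obtain ⟨q2, hq2, hb⟩ := mem_fimp.1 (hW1 ((ξ, false), (η, true)) (e η ξ)) q0
    (hq0ξ.trans (hc ξ)) (meets_fground.2 rfl)
  obtain ⟨q3, hq3, ⟨s, t⟩, ⟨hs, ht⟩, hst⟩ := mem_fex.1 hb q2 le_rfl
  -- the bits
  obtain ⟨q4, hq4, hbit, -, -, -⟩ := exists_bits q3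
    (({(ξ, false), (η, true)} : Finset (K1 × Bool)) ×ˢ Finset.range (max s.length t.length))
    (fun _ _ => true)
  have hs4 : ∀ i : Fin s.length, Fact.co (ξ, false) i (s.get i) ∈ q4.1 := by
    intro i
    obtain ⟨b, hb⟩ := hbit ((ξ, false), i) (Finset.mem_product.2 ⟨by simp,
      Finset.mem_range.2 (lt_of_lt_of_le i.2 (le_max_left _ _))⟩)
    have := eq_of_ext (ext_down hs hq4) i hb
    rw [← this]
    exact hb
  have ht4 : ∀ i : Fin t.length, Fact.co (η, true) i (t.get i) ∈ q4.1 := by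
    intro i
    obtain ⟨b, hb⟩ := hbit ((η, true), i) (Finset.mem_product.2 ⟨by simp,
      Finset.mem_range.2 (lt_of_lt_of_le i.2 (le_max_right _ _))⟩)
    have := eq_of_ext (ext_down ht hq4) i hb
    rw [← this]
    exact hb
  -- the third point
  obtain ⟨ζ, hζ, hζR, hζη⟩ : ∃ ζ ∈ S, (∀ x ∈ A ζ, x ∈ Ind q4.1 → x ∈ R) ∧ ζ ≠ η := by
    by_contra hcon
    push Not at hcon
    apply hS
    have hfin : (⋃ x ∈ {x | x ∈ Ind q4.1 ∧ x ∉ R}, {ζ | ζ ∈ S ∧ x ∈ A ζ}).Finite := by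
      refine Set.Finite.biUnion ((Ind q4.1).finite_toSet.subset fun x hx => hx.1) ?_
      intro x hx
      refine Set.Subsingleton.finite fun y hy y' hy' => ?_
      by_contra hne
      exact hx.2 (U.inter y hy.1 y' hy'.1 hne x hy.2 hy'.2)
    refine ((hfin.insert η).subset fun ζ hζ => ?_).countable
    by_cases h1 : ∀ x ∈ A ζ, x ∈ Ind q4.1 → x ∈ R
    · exact Set.mem_insert_iff.2 (Or.inl (hcon ζ hζ h1))
    · push Not at h1
      obtain ⟨x, hx1, hx2, hx3⟩ := h1
      exact Set.mem_insert_iff.2 (Or.inr (Set.mem_biUnion (x := x) ⟨hx2, hx3⟩ ⟨hζ, hx1⟩))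
  have hnotR : Sum.inr (ζ, true) ∉ R := by
    intro h
    have h2 : cd η (Sum.inr (ζ, true)) = cd η (Sum.inr (η, true)) := by
      rw [← U.same ζ η _ h]
      exact U.code1 ζ hζ η hη
    have h3 := U.inj η (U.root η hη h) (U.mem1 η) h2
    exact hζη (congrArg Prod.fst (Sum.inr.inj h3))
  have hμη : mir (A η) (cd ζ) (cd η) (ζ, true) = (η, true) :=
    mir_eq (U.inj η) (U.mem1 η) (U.code1 η hη ζ hζ)
  have hμξ : mir (A ξ) (cd ζ) (cd ξ) (ζ, false) = (ξ, false) :=
    mir_eq (U.inj ξ) (U.mem0 ξ) (U.code0 ξ hξ ζ hζ)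
  let μ : K1 × Bool → K1 × Bool := fun a =>
    if a = (ζ, true) then (η, true) else mir (A ξ) (cd ζ) (cd ξ) a
  have hμ1 : μ (ζ, true) = (η, true) := if_pos rfl
  have hμ0 : μ (ζ, false) = (ξ, false) := by
    show (if (ζ, false) = (ζ, true) then _ else _) = _
    rw [if_neg (by simp)]
    exact hμξ
  have h4ξ : q4 ≤ c ξ := hq4.trans (hq3.trans (hq2.trans hq0ξ))
  have h4η : q4 ≤ c η := hq4.trans (hq3.trans (hq2.trans hq0η))
  obtain ⟨w, hw1, hw2, hw3⟩ := merge (c ζ) q4 (A ζ) (U.ind ζ) R hζR μ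
    (fun a ha => by
      have hne : a ≠ (ζ, true) := by
        rintro rfl
        exact hnotR ha
      show (if a = (ζ, true) then _ else _) = _
      rw [if_neg hne]
      exact U.mir_root hξ ha)
    (fun a n b h => by
      by_cases hne : a = (ζ, true)
      · subst hne
        rw [hμ1]
        have := U.mir_co hζ hη h
        rw [hμη] at this
        exact h4η this
      · show Fact.co (if a = (ζ, true) then _ else _) n b ∈ _
        rw [if_neg hne]
        exact h4ξ (U.mir_co hζ hξ h))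
    (fun j a n hj h => by
      by_cases hne : a = (ζ, true)
      · subst hne
        rw [hμ1]
        have := U.mir_pr hζ hη hj h
        rw [hμη] at this
        exact h4η this
      · show Fact.pr j (if a = (ζ, true) then _ else _) n ∈ _
        rw [if_neg hne]
        exact h4ξ (U.mir_pr hζ hξ hj h))
    (fun j s n hj h => h4ξ (U.mir_op hζ hξ hj h))
  refine hm ζ (e η ξ) (by rw [U.num ζ hζ η hη]; exact hM) w hw1 (mem_fex.2 fun w' hw' =>
    ⟨w', le_rfl, (s, t), ⟨ext_of fun i => hw' (hw3 (ζ, false) (U.mem0 ζ) _ _ ?_),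
      ext_of fun i => hw' (hw3 (ζ, true) (U.mem1 ζ) _ _ ?_)⟩,
      meets_down hst (hw'.trans (hw2.trans hq4))⟩)
  · rw [hμ0]
    exact hs4 i
  · rw [hμ1]
    exact ht4 i

end

/-! ### Bookkeeping -/

theorem mk_fact_le {J I : Type} {lam : Cardinal.{0}} (h0 : ℵ₀ ≤ lam) (hJ : #J ≤ lam)
    (hI : #I ≤ lam) : #(Fact J I) ≤ lam := by
  let f : Fact J I → ((I × ℕ) × Bool) ⊕ ((J × List Bool) × ℕ) ⊕ ((J × I) × ℕ) := fun x =>
    match x with
    | .co a n b => Sum.inl ((a, n), b)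
    | .op j s n => Sum.inr (Sum.inl ((j, s), n))
    | .pr j a m => Sum.inr (Sum.inr ((j, a), m))
  have hf : Function.Injective f := by
    intro x y h
    cases x <;> cases y <;> simp_all [f]
  refine (mk_le_of_injective hf).trans ?_
  have hN : #ℕ ≤ lam := by rw [mk_nat]; exact h0
  have hB : #Bool ≤ lam := (mk_le_aleph0).trans h0
  have hL : #(List Bool) ≤ lam := (mk_le_aleph0).trans h0
  have hmul : ∀ {a b : Cardinal.{0}}, a ≤ lam → b ≤ lam → a * b ≤ lam := fun ha hb =>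
    (mul_le_mul' ha hb).trans (mul_eq_self h0).le
  have hadd : ∀ {a b : Cardinal.{0}}, a ≤ lam → b ≤ lam → a + b ≤ lam := fun ha hb =>
    (add_le_add ha hb).trans (add_eq_self h0).le
  simp only [mk_sum, mk_prod, lift_id]
  exact hadd (hmul (hmul hI hN) hB) (hadd (hmul (hmul hJ hL) hN) (hmul (hmul hJ hI) hN))

/-- the bookkeeping function -/
theorem exists_book : ∃ g : Len → K1 × Bool → ℕ → Set (Finset (Fact Len (K1 × Bool))),
    ∀ N : K1 × Bool → ℕ → Set (Finset (Fact Len (K1 × Bool))), (∀ a k, (N a k).Countable) →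
      ∃ j, g j = N := by
  have h1 : ℵ₀ ≤ ℵ_ 1 := aleph0_le_aleph 1
  have hlam : ℵ_ 1 ≤ 2 ^ ℵ_ 1 := (cantor _).le
  have h0 : ℵ₀ ≤ 2 ^ ℵ_ 1 := h1.trans hlam
  have hK : #(K1 × Bool) ≤ ℵ_ 1 := by
    rw [mk_prod, lift_id, lift_id, mk_K1]
    exact (mul_le_mul' le_rfl ((mk_le_aleph0).trans h1)).trans (mul_eq_self h1).le
  have hF : #(Fact Len (K1 × Bool)) ≤ 2 ^ ℵ_ 1 := mk_fact_le h0 mk_Len.le (hK.trans hlam)
  have hR : #(Finset (Fact Len (K1 × Bool))) ≤ 2 ^ ℵ_ 1 := by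
    rcases finite_or_infinite (Fact Len (K1 × Bool)) with h | h
    · exact ((mk_lt_aleph0).le).trans h0
    · rw [mk_finset_of_infinite]; exact hF
  have hO : #(Option (Finset (Fact Len (K1 × Bool)))) ≤ 2 ^ ℵ_ 1 := by
    rw [mk_option]
    exact (add_le_add hR (one_le_aleph0.trans h0)).trans (add_eq_self h0).le
  have hNat : #ℕ ≤ ℵ_ 1 := by rw [mk_nat]; exact h1
  have hNm : #(K1 × Bool → ℕ → ℕ → Option (Finset (Fact Len (K1 × Bool)))) ≤ #Len := by
    rw [mk_Len]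
    exact mk_arrow_le h1 hK (mk_arrow_le h1 hNat (mk_arrow_le h1 hNat hO))
  obtain ⟨F⟩ := hNm
  let f := Function.invFun F
  have hf : ∀ N, f (F N) = N := Function.leftInverse_invFun F.injective
  refine ⟨fun j a k => {r | ∃ n, f j a k n = some r}, fun N hN => ?_⟩
  choose h hh using fun a k => exists_enum (hN a k)
  refine ⟨F h, ?_⟩
  funext a k
  ext r
  rw [hh a k r]
  simp only [hf, Set.mem_ofPred_eq]

end Pool.Agent.W876.Dlt
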